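import Pool.Agent.FPPT.Tail
import Pool.Agent.FPPT.Mono

/-!
The almost sure upper bound `limsup T(0, ∂B(n)) / log n ≤ 1` from Poisson domination.
-/

set_option autoImplicit false

open Finset MeasureTheory Filter
open scoped NNReal ENNReal

namespace Pool.Agent.FPD15

open Pool.Agent.FPP38 Pool.Agent.FPPT

/-- exponential moment bound for the Poisson tail -/
theorem chern (m : ℕ) {l x : ℝ} (hl : 0 ≤ l) (hx : 1 ≤ x) :
    PT m l ≤ Real.exp (l * (x - 1)) / x ^ m := by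
  have hx0 : 0 < x := by linarith
  have h1 : HasSum (fun j : ℕ => l ^ j / (j.factorial : ℝ)) (Real.exp l) := by
    rw [Real.exp_eq_exp_ℝ]
    exact NormedSpace.expSeries_div_hasSum_exp l
  have h2 : HasSum (fun j : ℕ => (l * x) ^ j / (j.factorial : ℝ)) (Real.exp (l * x)) := by
    rw [Real.exp_eq_exp_ℝ]
    exact NormedSpace.expSeries_div_hasSum_exp (l * x)
  have h3 : HasSum (fun j : ℕ => if j ∈ range m then l ^ j / (j.factorial : ℝ) else 0)
      (∑ j ∈ range m, if j ∈ range m then l ^ j / (j.factorial : ℝ) else 0) :=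
    hasSum_sum_of_ne_finset_zero fun j hj => if_neg hj
  have h3' : (∑ j ∈ range m, if j ∈ range m then l ^ j / (j.factorial : ℝ) else 0) = Ek m l := by
    unfold Ek
    exact sum_congr rfl fun j hj => if_pos hj
  rw [h3'] at h3
  have h4 := h3.add (h2.div_const (x ^ m))
  have h5 : Real.exp l ≤ Ek m l + Real.exp (l * x) / x ^ m := by
    refine hasSum_le (fun j => ?_) h1 h4
    by_cases hj : j ∈ range m
    · rw [if_pos hj]
      have : 0 ≤ (l * x) ^ j / (j.factorial : ℝ) / x ^ m := by positivity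
      linarith
    · rw [if_neg hj, zero_add, div_div, mul_pow, mul_comm (j.factorial : ℝ), ← div_div]
      refine div_le_div_of_nonneg_right ?_ (by positivity)
      rw [le_div_iff₀ (by positivity)]
      refine mul_le_mul_of_nonneg_left ?_ (by positivity)
      exact pow_le_pow_right₀ hx (by simpa using hj)
  have h6 : Real.exp (-l) * Real.exp l = 1 := by rw [← Real.exp_add]; simp
  have h7 : Real.exp (-l) * (Real.exp (l * x) / x ^ m) = Real.exp (l * (x - 1)) / x ^ m := by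
    rw [← mul_div_assoc, ← Real.exp_add]
    congr 2; ring
  have h8 := mul_le_mul_of_nonneg_left h5 (Real.exp_pos (-l)).le
  rw [h6, mul_add, h7] at h8
  unfold PT
  linarith

/-- the rate is positive -/
theorem rate_pos {ε : ℝ} (hε : 0 < ε) : 0 < (1 + ε) * Real.log (1 + ε) - ε := by
  have h1 : (1 + ε)⁻¹ ≠ 1 := by
    intro h
    have := inv_eq_one.1 h
    linarith
  have h2 := Real.log_lt_sub_one_of_pos (x := (1 + ε)⁻¹) (by positivity) h1
  rw [Real.log_inv] at h2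
  have h3 : (1 + ε) * (1 + ε)⁻¹ = 1 := mul_inv_cancel₀ (by positivity)
  have h4 : 0 < Real.log (1 + ε) - (1 - (1 + ε)⁻¹) := by linarith
  have h5 := mul_pos (show 0 < 1 + ε by linarith) h4
  nlinarith

/-- the tail beyond `(1 + ε) l` -/
theorem tail_exp {ε l : ℝ} (hε : 0 < ε) (hl : 0 ≤ l) {m : ℕ} (hm : (1 + ε) * l ≤ m) :
    PT m l ≤ Real.exp (-(((1 + ε) * Real.log (1 + ε) - ε) * l)) := by
  refine (chern m hl (show (1 : ℝ) ≤ 1 + ε by linarith)).trans ?_
  have h1 : (1 + ε : ℝ) ^ m = Real.exp (m * Real.log (1 + ε)) := by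
    rw [Real.exp_nat_mul, Real.exp_log (by linarith)]
  rw [h1, ← Real.exp_sub]
  refine Real.exp_le_exp.2 ?_
  have h2 : 0 ≤ Real.log (1 + ε) := Real.log_nonneg (by linarith)
  have h3 := mul_le_mul_of_nonneg_right hm h2
  nlinarith

theorem log_two_pow (j : ℕ) : Real.log (((2 ^ j : ℕ) : ℝ)) = j * Real.log 2 := by
  push_cast
  rw [Real.log_pow]

/-- **the almost sure upper bound along powers of two** -/
theorem ae_pow {μ : Measure (Sym2 (Fin 3 → ℤ) → Bool)}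
    (hT : ∀ n : ℕ, 1 ≤ n → ∀ k : ℕ, μ {ω | k < TT 3 n ω} ≤
      ENNReal.ofReal (PT (k + 1) (Real.log n + 3))) {ε : ℝ} (hε : 0 < ε) :
    ∀ᵐ ω ∂μ, ∀ᶠ j : ℕ in atTop, (TT 3 (2 ^ j) ω : ℝ) ≤ (1 + ε) * (j * Real.log 2 + 3) := by
  set c := (1 + ε) * Real.log (1 + ε) - ε with hc
  have hc0 : 0 < c := rate_pos hε
  have hlog : 0 < Real.log 2 := Real.log_pos (by norm_num)
  have hlj : ∀ j : ℕ, (0 : ℝ) ≤ j * Real.log 2 + 3 := fun j => by positivity
  set s : ℕ → Set (Sym2 (Fin 3 → ℤ) → Bool) := fun j =>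
    {ω | ⌊(1 + ε) * (j * Real.log 2 + 3)⌋₊ < TT 3 (2 ^ j) ω} with hs
  have hle : ∀ j, μ (s j) ≤ ENNReal.ofReal (Real.exp (-(c * Real.log 2)) ^ j) := by
    intro j
    refine (hT (2 ^ j) Nat.one_le_two_pow _).trans (ENNReal.ofReal_le_ofReal ?_)
    rw [log_two_pow]
    refine (tail_exp hε (hlj j) ?_).trans ?_
    · push_cast
      exact (Nat.lt_floor_add_one _).le
    · rw [← Real.exp_nat_mul]
      refine Real.exp_le_exp.2 ?_
      rw [← hc]
      nlinarith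
  have hsum : ∑' j, μ (s j) ≠ ∞ := by
    refine ne_top_of_le_ne_top ?_ (ENNReal.tsum_le_tsum hle)
    have hr : Summable fun j : ℕ => Real.exp (-(c * Real.log 2)) ^ j := by
      refine summable_geometric_of_lt_one (Real.exp_pos _).le ?_
      rw [Real.exp_lt_one_iff]
      have := mul_pos hc0 hlog
      linarith
    exact hr.tsum_ofReal_ne_top
  filter_upwards [ae_eventually_notMem hsum] with ω hω
  filter_upwards [hω] with j hj
  have h1 : TT 3 (2 ^ j) ω ≤ ⌊(1 + ε) * (j * Real.log 2 + 3)⌋₊ := not_lt.1 hj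
  have h2 : (⌊(1 + ε) * (j * Real.log 2 + 3)⌋₊ : ℝ) ≤ (1 + ε) * (j * Real.log 2 + 3) :=
    Nat.floor_le (mul_nonneg (by linarith) (hlj j))
  exact (Nat.cast_le.2 h1).trans h2

theorem ae_one {μ : Measure (Sym2 (Fin 3 → ℤ) → Bool)}
    (hT : ∀ n : ℕ, 1 ≤ n → ∀ k : ℕ, μ {ω | k < TT 3 n ω} ≤
      ENNReal.ofReal (PT (k + 1) (Real.log n + 3))) {ε : ℝ} (hε : 0 < ε) :
    ∀ᵐ ω ∂μ, ∀ᶠ n : ℕ in atTop, (TT 3 n ω : ℝ) ≤ (1 + ε) * Real.log n := by
  have hlog : 0 < Real.log 2 := Real.log_pos (by norm_num)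
  filter_upwards [ae_pow hT (half_pos hε)] with ω hω
  obtain ⟨J, hJ⟩ := eventually_atTop.1 hω
  have hlim : Tendsto (fun n : ℕ => Real.log (n : ℝ)) atTop atTop :=
    Real.tendsto_log_atTop.comp tendsto_natCast_atTop_atTop
  filter_upwards [eventually_ge_atTop (2 ^ J), eventually_ge_atTop 1,
    hlim.eventually_ge_atTop ((1 + ε / 2) * (Real.log 2 + 3) / (ε / 2))] with n hn1 hn2 hn3
  set j := Nat.log 2 n with hj
  have hJj : J ≤ j := Nat.le_log_of_pow_le (by norm_num) hn1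
  have h1 : n ≤ 2 ^ (j + 1) := (Nat.lt_pow_succ_log_self (by norm_num) n).le
  have h2 : 2 ^ j ≤ n := Nat.pow_log_le_self 2 (by omega)
  have h3 : (j : ℝ) * Real.log 2 ≤ Real.log n := by
    rw [← log_two_pow]
    exact Real.log_le_log (by positivity) (by exact_mod_cast h2)
  have h4 := hJ (j + 1) (by omega)
  have h5 : (TT 3 n ω : ℝ) ≤ TT 3 (2 ^ (j + 1)) ω := by exact_mod_cast TT_mono (0 : Fin 3) h1 ω
  rw [div_le_iff₀ (half_pos hε)] at hn3
  push_cast at h4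
  nlinarith

/-- **the almost sure upper bound** -/
theorem ae_all {μ : Measure (Sym2 (Fin 3 → ℤ) → Bool)}
    (hT : ∀ n : ℕ, 1 ≤ n → ∀ k : ℕ, μ {ω | k < TT 3 n ω} ≤
      ENNReal.ofReal (PT (k + 1) (Real.log n + 3))) :
    ∀ᵐ ω ∂μ, ∀ ε : ℝ, 0 < ε → ∀ᶠ n : ℕ in atTop, (TT 3 n ω : ℝ) ≤ (1 + ε) * Real.log n := by
  have h1 : ∀ᵐ ω ∂μ, ∀ m : ℕ, ∀ᶠ n : ℕ in atTop,
      (TT 3 n ω : ℝ) ≤ (1 + 1 / ((m : ℝ) + 1)) * Real.log n :=
    ae_all_iff.2 fun m => ae_one hT (by positivity)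
  filter_upwards [h1] with ω hω ε hε
  obtain ⟨m, hm⟩ := exists_nat_one_div_lt hε
  filter_upwards [hω m, eventually_ge_atTop 1] with n hn hn1
  have h2 : 0 ≤ Real.log (n : ℝ) := Real.log_nonneg (by exact_mod_cast hn1)
  refine hn.trans (mul_le_mul_of_nonneg_right ?_ h2)
  linarith

end Pool.Agent.FPD15
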