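import Pool.Agent.FPP38.Ineq

/-!
Poisson domination for Bernoulli first-passage percolation on a finite set of edges:
`P(T ≥ k) ≤ P(Poisson(- log P(T = 0)) ≥ k)`.
-/

set_option autoImplicit false

open Finset

namespace Pool.Agent.FPD15

open Pool.Agent.FPP38

/-- `P(N ≥ k)` for a Poisson variable `N` with `P(N = 0) = q` -/
noncomputable def PT (k : ℕ) (q : ℝ) : ℝ :=
  1 - q * ∑ j ∈ range k, (-Real.log q) ^ j / (j.factorial : ℝ)

/-- the other half of the potential -/
noncomputable def PL (k : ℕ) (q : ℝ) : ℝ := (-Real.log q) ^ k / (k.factorial : ℝ)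

theorem PT_zero (q : ℝ) : PT 0 q = 1 := by simp [PT]

theorem PT_succ (k : ℕ) (q : ℝ) : PT (k + 1) q = PT k q - q * PL k q := by
  simp only [PT, PL, sum_range_succ]; ring

theorem PT_one (k : ℕ) : PT (k + 1) 1 = 0 := by
  unfold PT
  rw [sum_eq_single 0]
  · simp
  · intro j _ hj
    simp [hj]
  · intro h; simp at h

theorem PL_one (k : ℕ) : PL (k + 1) 1 = 0 := by simp [PL]

theorem hasDerivAt_sum (k : ℕ) {x : ℝ} (hx : 0 < x) :
    HasDerivAt (fun y : ℝ => y * ∑ j ∈ range (k + 1), (-Real.log y) ^ j / (j.factorial : ℝ))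
      ((-Real.log x) ^ k / (k.factorial : ℝ)) x := by
  induction k with
  | zero =>
    simp only [zero_add, sum_range_one, pow_zero, Nat.factorial_zero, Nat.cast_one, div_one, mul_one]
    exact hasDerivAt_id x
  | succ k ih =>
    have e : (fun y : ℝ => y * ∑ j ∈ range (k + 1 + 1), (-Real.log y) ^ j / (j.factorial : ℝ)) =
        fun y => y * ∑ j ∈ range (k + 1), (-Real.log y) ^ j / (j.factorial : ℝ) +
          y * ((-Real.log y) ^ (k + 1) / ((k + 1).factorial : ℝ)) := by
      funext y; rw [sum_range_succ]; ring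
    rw [e]
    have hl : HasDerivAt (fun y : ℝ => -Real.log y) (-(x⁻¹)) x := (Real.hasDerivAt_log hx.ne').neg
    have hp := ((hl.pow (k + 1)).div_const ((k + 1).factorial : ℝ))
    have hm := (hasDerivAt_id x).mul hp
    have := ih.add hm
    refine this.congr_deriv ?_
    have hf : ((k + 1).factorial : ℝ) = (k + 1) * k.factorial := by
      rw [Nat.factorial_succ]; push_cast; ring
    have hk : (k.factorial : ℝ) ≠ 0 := by exact_mod_cast k.factorial_ne_zero
    have hk1 : (k : ℝ) + 1 ≠ 0 := by positivity
    simp only [id, Nat.add_sub_cancel, Pi.pow_apply]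
    rw [hf]
    push_cast
    field_simp
    ring

/-- the numerical step -/
theorem num_step {k : ℕ} {q ψ ψ' : ℝ} (hψ : 0 < ψ) (hle : ψ ≤ ψ') (h1 : ψ' ≤ 1) (hq : q ≤ ψ) :
    PT k ψ' - q * PL k ψ' ≤ PT k ψ - q * PL k ψ := by
  rcases k with _ | k
  · simp [PT, PL]
  have hd : ∀ x : ℝ, 0 < x → HasDerivAt (fun y => PT (k + 1) y - q * PL (k + 1) y)
      (-((-Real.log x) ^ k / (k.factorial : ℝ)) * (1 - q / x)) x := by
    intro x hx
    have hl : HasDerivAt (fun y : ℝ => -Real.log y) (-(x⁻¹)) x := (Real.hasDerivAt_log hx.ne').neg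
    have hp := ((hl.pow (k + 1)).div_const ((k + 1).factorial : ℝ)).const_mul q
    have := ((hasDerivAt_sum k hx).const_sub 1).sub hp
    refine this.congr_deriv ?_
    have hf : ((k + 1).factorial : ℝ) = (k + 1) * k.factorial := by
      rw [Nat.factorial_succ]; push_cast; ring
    have hk : (k.factorial : ℝ) ≠ 0 := by exact_mod_cast k.factorial_ne_zero
    have hk1 : (k : ℝ) + 1 ≠ 0 := by positivity
    simp only [Nat.add_sub_cancel]
    rw [hf]
    push_cast
    field_simp
    ring
  have hanti : AntitoneOn (fun y => PT (k + 1) y - q * PL (k + 1) y) (Set.Icc ψ 1) := by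
    refine antitoneOn_of_deriv_nonpos (convex_Icc _ _) ?_ ?_ ?_
    · intro x hx
      exact (hd x (hψ.trans_le hx.1)).continuousAt.continuousWithinAt
    · intro x hx
      rw [interior_Icc] at hx
      exact (hd x (hψ.trans hx.1)).differentiableAt.differentiableWithinAt
    · intro x hx
      rw [interior_Icc] at hx
      have hx0 : 0 < x := hψ.trans hx.1
      rw [(hd x hx0).deriv]
      have a1 : 0 ≤ (-Real.log x) ^ k / (k.factorial : ℝ) := by
        have : 0 ≤ -Real.log x := by
          have := Real.log_nonpos hx0.le hx.2.le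
          linarith
        positivity
      have a2 : 0 ≤ 1 - q / x := by
        have : q / x ≤ 1 := by
          rw [div_le_one hx0]
          exact hq.trans hx.1.le
        linarith
      have := mul_nonneg a1 a2
      linarith
  exact hanti ⟨le_rfl, hle.trans h1⟩ ⟨hle, h1⟩ hle

variable {V : Type*} [DecidableEq V]

/-- **Main inequality.** -/
theorem main_ineq {p : ℝ} (h0 : 0 ≤ p) (h1 : p ≤ 1) (t : Set V) :
    ∀ (A : Finset (Sym2 V)) (S R : Finset V) (k : ℕ), 0 < Q p t A (S ∪ R) →
      Fl p t A S R k ≤ PT k (Q p t A (S ∪ R)) - Q p t A S * PL k (Q p t A (S ∪ R)) := by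
  intro A
  induction hn : A.card using Nat.strong_induction_on generalizing A with
  | _ n ih =>
    have core : ∀ (S R : Finset V) (k : ℕ), 0 < Q p t A (S ∪ R) →
        ((∃ v ∈ S, v ∈ t) ∨ ¬ Exh A S) →
        Fl p t A S R k ≤ PT k (Q p t A (S ∪ R)) - Q p t A S * PL k (Q p t A (S ∪ R)) := by
      intro S R k hpos hcase
      rcases hcase with ht | hE
      · have h2 : Q p t A S = 1 := Q_eq_one ht
        have h3 : Q p t A (S ∪ R) = 1 := by
          obtain ⟨v, hv, hvt⟩ := ht
          exact Q_eq_one ⟨v, mem_union_left _ hv, hvt⟩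
        rw [Fl_eq_zero ht, h2, h3]
        rcases k with _ | k
        · simp [PT, PL]
        · rw [PT_one, PL_one]; norm_num
      · unfold Exh at hE
        push Not at hE
        obtain ⟨a, ha, w, he, hw⟩ := hE
        set A' := A.erase s(a, w) with hA'
        have hcard : A'.card < n := by
          rw [← hn]; exact card_erase_lt_of_mem he
        set ψ' := Q p t A' (insert w (S ∪ R)) with hψ'
        have haU : a ∈ S ∪ R := mem_union_left _ ha
        have hψ : Q p t A (S ∪ R) ≤ ψ' := by
          rw [Q_reveal haU he]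
          have g1 := Q_mono h0 h1 t A' (subset_insert w (S ∪ R))
          have g2 : (1 - p) * Q p t A' (S ∪ R) ≤ (1 - p) * ψ' :=
            mul_le_mul_of_nonneg_left g1 (by linarith)
          have g3 : p * Q p t A' (insert w (S ∪ R)) = p * ψ' := rfl
          linarith
        have hψ'0 : 0 < ψ' := hpos.trans_le hψ
        have u1 : insert w S ∪ R = insert w (S ∪ R) := insert_union w S R
        have u2 : S ∪ insert w R = insert w (S ∪ R) := union_insert w S R
        have ih1 := ih _ hcard A' rfl (insert w S) R k (by rw [u1]; exact hψ'0)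
        have ih2 := ih _ hcard A' rfl S (insert w R) k (by rw [u2]; exact hψ'0)
        rw [u1, ← hψ'] at ih1
        rw [u2, ← hψ'] at ih2
        have hsum : Fl p t A S R k =
            p * Fl p t A' (insert w S) R k + (1 - p) * Fl p t A' S (insert w R) k :=
          Fl_reveal ha he k
        have hq : Q p t A S = p * Q p t A' (insert w S) + (1 - p) * Q p t A' S := Q_reveal ha he
        have j1 := mul_le_mul_of_nonneg_left ih1 h0
        have j2 := mul_le_mul_of_nonneg_left ih2 (sub_nonneg.2 h1)
        have j3 : Fl p t A S R k ≤ PT k ψ' - Q p t A S * PL k ψ' := by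
          rw [hsum, hq]
          nlinarith
        exact j3.trans (num_step hpos hψ (Q_le_one h0 h1 t A' _)
          (Q_mono h0 h1 t A subset_union_left))
    intro S R k hpos
    by_cases hcase : (∃ v ∈ S, v ∈ t) ∨ ¬ Exh A S
    · exact core S R k hpos hcase
    · push Not at hcase
      obtain ⟨hnt, hE⟩ := hcase
      have hq0 : Q p t A S = 0 := Q_eq_zero (by push Not; exact hnt) hE
      have hU : (∃ v ∈ S ∪ R, v ∈ t) ∨ ¬ Exh A (S ∪ R) := by
        by_contra hc
        push Not at hc
        exact absurd (Q_eq_zero (p := p) (by push Not; exact hc.1) hc.2) hpos.ne'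
      rw [hq0, zero_mul, sub_zero]
      rcases k with _ | k
      · rw [PT_zero]; exact Fl_le_one h0 h1 t A S R 0
      · rw [Fl_exh hE]
        have c := core (S ∪ R) ∅ k (by rwa [union_empty]) hU
        rw [union_empty] at c
        rw [PT_succ]
        exact c

/-- `P(T > k) ≤ P(N > k)`, `N` Poisson with `P(N = 0) = P(T = 0)` -/
theorem fl_le {p : ℝ} (h0 : 0 ≤ p) (h1 : p ≤ 1) (t : Set V) (A : Finset (Sym2 V))
    (S : Finset V) (k : ℕ) (hq : 0 < Q p t A S) :
    Fl p t A S ∅ k ≤ PT (k + 1) (Q p t A S) := by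
  have := main_ineq h0 h1 t A S ∅ k (by rwa [union_empty])
  rw [union_empty] at this
  rwa [PT_succ]

/-- `PT` is antitone in `q` -/
theorem PT_anti {k : ℕ} {x y : ℝ} (hx : 0 < x) (hxy : x ≤ y) (hy : y ≤ 1) : PT k y ≤ PT k x := by
  rcases k with _ | k
  · rw [PT_zero, PT_zero]
  · have h := num_step (k := k) (q := x) hx hxy hy le_rfl
    have h2 : 0 ≤ PL k y := by
      have : 0 ≤ -Real.log y := by
        have := Real.log_nonpos (hx.le.trans hxy) hy
        linarith
      unfold PL; positivity
    rw [PT_succ, PT_succ]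
    nlinarith

end Pool.Agent.FPD15
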